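import Pool.Agent.Helper78.IIC.Base

/-! # Module BMON -/

set_option autoImplicit false

namespace IIC

open scoped BigOperators

/-- log-supermodularity of the weight -/
theorem bmon_super (hS : ST_SUP) {V : Type} [Finite V] {E : Type} [DecidableEq E]
    (ends : E → Sym2 V) {β : ℝ} (hβ : 0 ≤ β) (S T : Finset E) :
    fkw ends β S * fkw ends β T ≤ fkw ends β (S ⊓ T) * fkw ends β (S ⊔ T) := by
  unfold fkw
  have h1 := hS V E ends (S : Set E) (T : Set E)
  have h2 := Finset.card_union_add_card_inter S T
  rw [Finset.inf_eq_inter, Finset.sup_eq_union, Finset.coe_inter, Finset.coe_union]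
  set p := Real.exp (2 * β) - 1 with hp
  have hp0 : 0 ≤ p := h78_exp_nonneg hβ
  have e1 : p ^ S.card * 2 ^ ncl ends (S : Set E) * (p ^ T.card * 2 ^ ncl ends (T : Set E)) =
      p ^ (S.card + T.card) * 2 ^ (ncl ends (S : Set E) + ncl ends (T : Set E)) := by
    rw [pow_add, pow_add]; ring
  have e2 : p ^ (S ∩ T).card * 2 ^ ncl ends ((S : Set E) ∩ T) *
      (p ^ (S ∪ T).card * 2 ^ ncl ends ((S : Set E) ∪ T)) =
      p ^ (S.card + T.card) * 2 ^ (ncl ends ((S : Set E) ∪ T) + ncl ends ((S : Set E) ∩ T)) := by
    rw [← h2, pow_add, pow_add]; ring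
  rw [e1, e2]
  refine mul_le_mul_of_nonneg_left ?_ (pow_nonneg hp0 _)
  exact pow_le_pow_right₀ (by norm_num) h1

theorem bmon_fin (hS : ST_SUP) {V : Type} [Finite V] {E : Type} [Fintype E]
    (ends : E → Sym2 V) {β β' : ℝ} (hβ : 0 ≤ β) (hβ' : β ≤ β') (A : Set (Finset E))
    (hA : IsUpperSet A) : fkP ends β A ≤ fkP ends β' A := by
  classical
  have hβ'0 : 0 ≤ β' := hβ.trans hβ'
  rcases hβ.eq_or_lt with h0 | h0
  · -- `β = 0`
    subst h0
    by_cases he : ∅ ∈ A
    · have : A = Set.univ := by
        ext T
        simp only [Set.mem_univ, iff_true]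
        exact hA (Finset.empty_subset T) he
      rw [this, h78_fkP_univ ends le_rfl, h78_fkP_univ ends hβ'0]
    · have : fkP ends 0 A = 0 := by
        unfold fkP
        rw [Finset.sum_eq_zero, zero_div]
        intro T _
        by_cases hT : T ∈ A
        · rw [Set.indicator_of_mem hT]
          unfold fkw
          have hT0 : T ≠ ∅ := fun h => he (h ▸ hT)
          have hc : T.card ≠ 0 := fun h => hT0 (Finset.card_eq_zero.1 h)
          rw [mul_zero, Real.exp_zero, sub_self, zero_pow hc, zero_mul]
        · exact Set.indicator_of_notMem hT _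
      rw [this]
      exact h78_fkP_nonneg ends hβ'0 A
  · have hp : 0 < Real.exp (2 * β) - 1 := by
      have := Real.add_one_lt_exp (show (2 * β) ≠ 0 by positivity)
      linarith
    set p := Real.exp (2 * β) - 1 with hpdef
    set p' := Real.exp (2 * β') - 1 with hpdef'
    have hpp : p ≤ p' := by
      have : Real.exp (2 * β) ≤ Real.exp (2 * β') := Real.exp_le_exp.2 (by linarith)
      linarith
    have hr : 1 ≤ p' / p := (one_le_div hp).2 hpp
    have hw : ∀ T : Finset E, fkw ends β' T = fkw ends β T * (p' / p) ^ T.card := by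
      intro T
      unfold fkw
      rw [← hpdef, ← hpdef', div_pow]
      field_simp
    have key := fkg (μ := fkw ends β) (f := fun T => A.indicator (fun _ => (1 : ℝ)) T)
      (g := fun T => (p' / p) ^ T.card) (fun T => h78_fkw_nonneg ends hβ T)
      (fun T => Set.indicator_nonneg (fun _ _ => zero_le_one) T)
      (fun T => by positivity) ?_ ?_ (fun S T => bmon_super hS ends hβ S T)
    · have e1 : ∀ β₁ : ℝ, ∀ T : Finset E, A.indicator (fkw ends β₁) T =
          fkw ends β₁ T * A.indicator (fun _ => (1 : ℝ)) T := by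
        intro β₁ T
        by_cases hT : T ∈ A
        · rw [Set.indicator_of_mem hT, Set.indicator_of_mem hT, mul_one]
        · rw [Set.indicator_of_notMem hT, Set.indicator_of_notMem hT, mul_zero]
      unfold fkP
      rw [div_le_div_iff₀ (h78_Z_pos ends hβ) (h78_Z_pos ends hβ'0)]
      have e2 : ∑ T : Finset E, A.indicator (fkw ends β) T =
          ∑ T : Finset E, fkw ends β T * A.indicator (fun _ => (1 : ℝ)) T :=
        Finset.sum_congr rfl fun T _ => e1 β T
      have e3 : ∑ T : Finset E, fkw ends β' T = ∑ T : Finset E, fkw ends β T * (p' / p) ^ T.card :=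
        Finset.sum_congr rfl fun T _ => hw T
      have e4 : ∑ T : Finset E, A.indicator (fkw ends β') T =
          ∑ T : Finset E, fkw ends β T * (A.indicator (fun _ => (1 : ℝ)) T *
            (p' / p) ^ T.card) :=
        Finset.sum_congr rfl fun T _ => by rw [e1 β' T, hw T]; ring
      rw [e2, e3, e4]
      refine key.trans (le_of_eq ?_)
      rw [mul_comm]
    · intro S T hST
      by_cases hS' : S ∈ A
      · have hT : T ∈ A := hA hST hS'
        simp only [Set.indicator_of_mem hS', Set.indicator_of_mem hT, le_refl]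
      · simp only [Set.indicator_of_notMem hS']
        exact Set.indicator_nonneg (fun _ _ => zero_le_one) T
    · intro S T hST
      exact pow_le_pow_right₀ hr (Finset.card_le_card hST)

theorem st_BMON (hS : ST_SUP) (hBR : ST_BR) : ST_BMON := by
  intro d β β' hβ hβ' Λ A hA
  obtain ⟨hfin, _, hP⟩ := hBR d Λ
  rw [hP β A, hP β' A]
  exact bmon_fin hS (qe Λ) hβ hβ' _ (h78_upper Λ hA)

end IIC
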