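import Pool.Agent.Helper78.IIC.Base

/-! # Module FKG -/

set_option autoImplicit false

namespace IIC

theorem st_FKG (hA : ST_FKGA) (hBR : ST_BR) : ST_FKG := by
  classical
  intro d β hβ Λ A B hAu hBu
  obtain ⟨hfin, _, hP⟩ := hBR d Λ
  rw [hP β A, hP β B, hP β (A ∩ B)]
  exact hA (QV Λ) {e // e ∈ Λ} (qe Λ) β hβ _ _ (h78_upper Λ hAu) (h78_upper Λ hBu)

end IIC
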