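import Pool.Agent.Helper78.IIC.Base

/-! # Module SIML -/

set_option autoImplicit false

namespace IIC

open scoped BigOperators

theorem siml_cn (hBR : ST_BR) (d : ℕ) (Λ : Finset (Ed d)) (β : ℝ) (x y : Fin d → ℤ) :
    PW β Λ (CN x y) = fkP (qe Λ) β (cn (qe Λ) (qm Λ x) (qm Λ y)) := by
  obtain ⟨_, hC, hP⟩ := hBR d Λ
  rw [hP β (CN x y)]
  congr 1
  ext T
  exact (hC T x y).symm

theorem st_SIML (hS : ST_SIMF) (hBR : ST_BR) : ST_SIML := by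
  classical
  intro d β hβ Λ o y B hB
  have hfin := (hBR d Λ).1
  have hC := (hBR d Λ).2.1
  have : Fintype (QV Λ) := Fintype.ofFinite _
  have h1 := hS (QV Λ) {e // e ∈ Λ} (qe Λ) β (qm Λ o) (qm Λ y) (B.image (qm Λ)) hβ (by
    intro T hT
    obtain ⟨z, hz, hz2⟩ := hB _ ((hC T o y).1 hT)
    exact ⟨qm Λ z, Finset.mem_image_of_mem _ hz, (hC T o z).2 hz2⟩)
  rw [siml_cn hBR]
  refine h1.trans ?_
  have h2 : ∀ z ∈ B, PW β Λ (CN o z) * PW β Λ (CN z y) =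
      fkP (qe Λ) β (cn (qe Λ) (qm Λ o) (qm Λ z)) * fkP (qe Λ) β (cn (qe Λ) (qm Λ z) (qm Λ y)) := by
    intro z _
    rw [siml_cn hBR, siml_cn hBR]
  rw [Finset.sum_congr rfl h2]
  refine Finset.sum_image_le_of_nonneg fun z _ => ?_
  exact mul_nonneg (h78_fkP_nonneg _ hβ _) (h78_fkP_nonneg _ hβ _)

end IIC
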