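import Pool.Agent.Helper20.IIC.Stmts

/-! # Elementary facts on `fkP` (helper78) -/

set_option autoImplicit false

namespace IIC

open scoped BigOperators

universe u v

section

variable {V : Type u} {E : Type v} (ends : E → Sym2 V) {β : ℝ}

theorem h78_exp_nonneg (hβ : 0 ≤ β) : 0 ≤ Real.exp (2 * β) - 1 :=
  sub_nonneg.2 (Real.one_le_exp (by linarith))

theorem h78_fkw_nonneg (hβ : 0 ≤ β) (T : Finset E) : 0 ≤ fkw ends β T :=
  mul_nonneg (pow_nonneg (h78_exp_nonneg hβ) _) (by positivity)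

theorem h78_fkw_empty : 0 < fkw ends β ∅ := by
  unfold fkw
  rw [Finset.card_empty, pow_zero, one_mul]
  positivity

variable [Fintype E]

theorem h78_Z_pos (hβ : 0 ≤ β) : 0 < ∑ T : Finset E, fkw ends β T :=
  Finset.sum_pos' (fun T _ => h78_fkw_nonneg ends hβ T)
    ⟨∅, Finset.mem_univ _, h78_fkw_empty ends⟩

theorem h78_fkP_nonneg (hβ : 0 ≤ β) (A : Set (Finset E)) : 0 ≤ fkP ends β A :=
  div_nonneg (Finset.sum_nonneg fun T _ => Set.indicator_nonneg
    (fun T _ => h78_fkw_nonneg ends hβ T) T) (h78_Z_pos ends hβ).le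

theorem h78_fkP_univ (hβ : 0 ≤ β) : fkP ends β Set.univ = 1 := by
  unfold fkP
  rw [Set.indicator_univ]
  exact div_self (h78_Z_pos ends hβ).ne'

end

/-- the configuration is an increasing function of the set of open edges -/
theorem h78_exw_mono {d : ℕ} (Λ : Finset (Ed d)) {T T' : Finset {e // e ∈ Λ}} (h : T ≤ T') :
    exw Λ (qs T) ≤ exw Λ (qs T') := by
  classical
  intro e
  unfold exw ext
  by_cases he : e ∈ Λ
  · simp only [he, if_true]
    by_cases hT : e ∈ qs T
    · have : e ∈ qs T' := Finset.map_subset_map.2 h hT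
      simp [this]
    · simp [hT]
  · simp [he]

theorem h78_upper {d : ℕ} (Λ : Finset (Ed d)) {A : Set (Cfg d)} (hA : IsUpperSet A) :
    IsUpperSet {T : Finset {e // e ∈ Λ} | exw Λ (qs T) ∈ A} :=
  fun _ _ h hT => hA (h78_exw_mono Λ h) hT

end IIC
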